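import Pool.Agent.N963.KL.Stm

set_option autoImplicit false

/-!
# Project KL, task TB: bounds for `S * gg` and its derivative (helper297)
-/

namespace Pool.Agent.N297.KL

open Complex Filter Topology MeasureTheory
open scoped ComplexConjugate
open Pool.Agent.N963.KL

/-- The derivative of the logarithm of the modulus along a segment. -/
lemma hasDerivAt_log {S : ℂ → ℂ} (hS : Differentiable ℂ S) (a d : ℂ) (t : ℝ)
    (h0 : S (a + t * d) ≠ 0) :
    HasDerivAt (fun t : ℝ => Real.log (‖S (a + t * d)‖ ^ 2)) (2 * (logDeriv S (a + t * d) * d).re) t := by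
  have h1 : HasDerivAt (fun t : ℝ => a + t * d) d t := by
    have h2 : HasDerivAt (fun t : ℝ => ((t : ℝ) : ℂ)) 1 t := by
      simpa using (hasDerivAt_id t).ofReal_comp
    have h3 := (h2.mul_const d).const_add a
    simpa using h3
  have h2 : HasDerivAt (fun t : ℝ => S (a + t * d)) (deriv S (a + t * d) * d) t :=
    HasDerivAt.comp t (hS (a + t * d)).hasDerivAt h1
  have h3 := h2.norm_sq
  have h4 : ‖S (a + t * d)‖ ^ 2 ≠ 0 := pow_ne_zero _ (norm_ne_zero_iff.2 h0)
  have h5 := h3.log h4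
  refine h5.congr_deriv ?_
  rw [Complex.inner, logDeriv_apply, mul_div_assoc]
  congr 1
  rw [div_eq_iff h4, ← Complex.normSq_eq_norm_sq]
  have h6 : deriv S (a + t * d) / S (a + t * d) * d =
      (conj (S (a + t * d)) * (deriv S (a + t * d) * d)) / ((normSq (S (a + t * d)) : ℝ) : ℂ) := by
    rw [Complex.normSq_eq_conj_mul_self]
    have h7 : conj (S (a + t * d)) ≠ 0 := by
      rw [Ne, map_eq_zero]; exact h0
    field_simp
  have h8 : normSq (S (a + t * d)) ≠ 0 := by
    rw [Complex.normSq_eq_norm_sq]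
    exact h4
  rw [h6, Complex.div_ofReal_re, div_mul_cancel₀ _ h8, mul_comm]

/-- Growth along a segment. -/
lemma seg_le {S : ℂ → ℂ} {κ : ℝ} (hS : SS S κ) {a b : ℂ} (ha : 0 < a.re) (hb : 0 < b.re) {K : ℝ}
    (h : ∀ t : ℝ, 0 < t → t < 1 → (logDeriv S (a + t * (b - a)) * (b - a)).re ≤ K) :
    ‖S b‖ ≤ ‖S a‖ * Real.exp K := by
  have hre : ∀ t : ℝ, 0 ≤ t → t ≤ 1 → 0 < (a + t * (b - a)).re := by
    intro t h0 h1
    have e : (a + t * (b - a)).re = (1 - t) * a.re + t * b.re := by
      simp [Complex.add_re, Complex.mul_re]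
      ring
    rw [e]
    rcases eq_or_lt_of_le h0 with h2 | h2
    · rw [← h2]; simpa using ha
    · have := mul_pos h2 hb
      have := mul_nonneg (sub_nonneg.2 h1) ha.le
      linarith
  have hd : ∀ t : ℝ, 0 ≤ t → t ≤ 1 → HasDerivAt
      (fun t : ℝ => Real.log (‖S (a + t * (b - a))‖ ^ 2))
      (2 * (logDeriv S (a + t * (b - a)) * (b - a)).re) t := fun t h0 h1 =>
    hasDerivAt_log hS.diff a (b - a) t (hS.ne _ (hre t h0 h1))
  obtain ⟨t, ht, he⟩ := exists_hasDerivAt_eq_slope
    (fun t : ℝ => Real.log (‖S (a + t * (b - a))‖ ^ 2))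
    (fun t : ℝ => 2 * (logDeriv S (a + t * (b - a)) * (b - a)).re) (zero_lt_one)
    (fun t ht => (hd t ht.1 ht.2).continuousAt.continuousWithinAt)
    (fun t ht => hd t ht.1.le ht.2.le)
  have h1 := h t ht.1 ht.2
  simp only [sub_zero, div_one, ofReal_one, one_mul, ofReal_zero, zero_mul, add_zero] at he
  have e1 : a + (b - a) = b := by ring
  rw [e1] at he
  have pa := norm_pos_iff.2 (hS.ne a ha)
  have pb := norm_pos_iff.2 (hS.ne b hb)
  rw [Real.log_pow, Real.log_pow] at he
  push_cast at he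
  have h2 : Real.log ‖S b‖ ≤ Real.log ‖S a‖ + K := by linarith
  calc ‖S b‖ = Real.exp (Real.log ‖S b‖) := (Real.exp_log pb).symm
    _ ≤ Real.exp (Real.log ‖S a‖ + K) := Real.exp_le_exp.2 h2
    _ = ‖S a‖ * Real.exp K := by rw [Real.exp_add, Real.exp_log pa]

/-- A point given by its parts. -/
lemma seg_pt (x y u v t : ℝ) : ((x : ℂ) + y * I) + t * (((u : ℂ) + v * I) - ((x : ℂ) + y * I)) =
    ((x + t * (u - x) : ℝ) : ℂ) + ((y + t * (v - y) : ℝ) : ℂ) * I := by
  push_cast; ring

lemma re_pt (x y : ℝ) : ((x : ℂ) + y * I).re = x := by simp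

lemma im_pt (x y : ℝ) : ((x : ℂ) + y * I).im = y := by simp

lemma hor_mono {S : ℂ → ℂ} {κ : ℝ} (hS : SS S κ) {x u y : ℝ} (hx : 0 < x) (hxu : x ≤ u) :
    ‖S ((x : ℂ) + y * I)‖ ≤ ‖S ((u : ℂ) + y * I)‖ := by
  have h := seg_le hS (a := (u : ℂ) + y * I) (b := (x : ℂ) + y * I) (K := 0)
    (by rw [re_pt]; linarith) (by rw [re_pt]; linarith) (fun t h0 h1 => by
      have e : ((x : ℂ) + y * I) - ((u : ℂ) + y * I) = ((x - u : ℝ) : ℂ) := by push_cast; ring
      rw [seg_pt, e, Complex.re_mul_ofReal]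
      have h2 := hS.pos (((u + t * (x - u) : ℝ) : ℂ) + ((y + t * (y - y) : ℝ) : ℂ) * I)
        (by rw [re_pt]; nlinarith)
      nlinarith)
  rwa [Real.exp_zero, mul_one] at h

lemma hor_gain {S : ℂ → ℂ} {κ κ' L1 : ℝ} (hS : SS S κ) (hL1 : 1 ≤ L1)
    (hq : ∀ w : ℂ, L1 ≤ w.re → |w.im| ≤ 1 → κ' ≤ (logDeriv S w).re) {x u y : ℝ} (hx : L1 ≤ x)
    (hxu : x ≤ u) (hy : |y| ≤ 1) :
    ‖S ((x : ℂ) + y * I)‖ ≤ ‖S ((u : ℂ) + y * I)‖ * Real.exp (-(κ' * (u - x))) := by
  refine seg_le hS (a := (u : ℂ) + y * I) (b := (x : ℂ) + y * I)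
    (by rw [re_pt]; linarith) (by rw [re_pt]; linarith) (fun t h0 h1 => ?_)
  have e : ((x : ℂ) + y * I) - ((u : ℂ) + y * I) = ((x - u : ℝ) : ℂ) := by push_cast; ring
  rw [seg_pt, e, Complex.re_mul_ofReal]
  have h2 := hq (((u + t * (x - u) : ℝ) : ℂ) + ((y + t * (y - y) : ℝ) : ℂ) * I)
    (by rw [re_pt]; nlinarith) (by rw [im_pt, sub_self, mul_zero, add_zero]; exact hy)
  nlinarith

lemma hor_up {S : ℂ → ℂ} {κ C : ℝ} (hS : SS S κ) (hC : 0 ≤ C)
    (hq : ∀ w : ℂ, 1 ≤ w.re → |w.im| ≤ 1 → ‖logDeriv S w‖ ≤ C * w.re) {x u y : ℝ} (hx : 1 ≤ x)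
    (hxu : x ≤ u) (hy : |y| ≤ 1) :
    ‖S ((u : ℂ) + y * I)‖ ≤ ‖S ((x : ℂ) + y * I)‖ * Real.exp (C * u * (u - x)) := by
  refine seg_le hS (a := (x : ℂ) + y * I) (b := (u : ℂ) + y * I)
    (by rw [re_pt]; linarith) (by rw [re_pt]; linarith) (fun t h0 h1 => ?_)
  have e : ((u : ℂ) + y * I) - ((x : ℂ) + y * I) = ((u - x : ℝ) : ℂ) := by push_cast; ring
  rw [seg_pt, e, Complex.re_mul_ofReal]
  have h2 := hq (((x + t * (u - x) : ℝ) : ℂ) + ((y + t * (y - y) : ℝ) : ℂ) * I)
    (by rw [re_pt]; nlinarith) (by rw [im_pt, sub_self, mul_zero, add_zero]; exact hy)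
  rw [re_pt] at h2
  have h3 := (Complex.re_le_norm _).trans h2
  have h4 : C * (x + t * (u - x)) ≤ C * u := mul_le_mul_of_nonneg_left (by nlinarith) hC
  exact mul_le_mul_of_nonneg_right (h3.trans h4) (by linarith)

lemma ver_le {S : ℂ → ℂ} {κ C : ℝ} (hS : SS S κ)
    (hq : ∀ w : ℂ, 1 ≤ w.re → |w.im| ≤ 1 → ‖logDeriv S w‖ ≤ C * w.re) {x y v : ℝ} (hx : 1 ≤ x)
    (hy : |y| ≤ 1) (hv : |v| ≤ 1) :
    ‖S ((x : ℂ) + v * I)‖ ≤ ‖S ((x : ℂ) + y * I)‖ * Real.exp (C * x * |v - y|) := by
  refine seg_le hS (a := (x : ℂ) + y * I) (b := (x : ℂ) + v * I)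
    (by rw [re_pt]; linarith) (by rw [re_pt]; linarith) (fun t h0 h1 => ?_)
  have e : ((x : ℂ) + v * I) - ((x : ℂ) + y * I) = ((v - y : ℝ) : ℂ) * I := by push_cast; ring
  rw [seg_pt]
  have h2 := hq (((x + t * (x - x) : ℝ) : ℂ) + ((y + t * (v - y) : ℝ) : ℂ) * I)
    (by rw [re_pt, sub_self, mul_zero, add_zero]; exact hx) (by
      rw [im_pt]
      rw [abs_le] at *
      constructor <;> nlinarith)
  rw [re_pt, sub_self, mul_zero, add_zero] at h2
  refine (Complex.re_le_norm _).trans ?_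
  rw [norm_mul, e, norm_mul, Complex.norm_I, mul_one, Complex.norm_real, Real.norm_eq_abs,
    sub_self, mul_zero, add_zero]
  exact mul_le_mul_of_nonneg_right h2 (abs_nonneg _)


/-- The bounds on the left. -/
lemma low (hGG : S_GG) {S : ℂ → ℂ} {κ : ℝ} (hS : SS S κ) (L1 : ℝ) :
    ∃ C1 : ℝ, 0 < C1 ∧ ∀ w : ℂ, w.re ≤ L1 → |w.im| ≤ 1 →
      ‖S w * gg w‖ ≤ C1 * Real.exp (3 * w.re) ∧
      ‖deriv (fun w => S w * gg w) w‖ ≤ C1 * Real.exp (3 * w.re) := by
  obtain ⟨hg0, -, ⟨C3, hC3, hg3, -⟩, hg4⟩ := hGG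
  obtain ⟨M, hM0, hM⟩ := hS.bd
  obtain ⟨C2, hC2, hg2⟩ := hg4 (2 * M + 3)
  set P : ℝ := M * C2 * Real.exp (4 * M + 1) + M * Real.exp (M * (2 * L1 ^ 2 + 4)) * C3 with hP
  have hP0 : 0 ≤ P := by positivity
  -- the bounds of `S` and its derivative
  have hb : ∀ w : ℂ, |w.im| ≤ 1 → ‖S w‖ ≤ M * Real.exp (M * (2 * w.re ^ 2 + 4)) ∧
      ‖deriv S w‖ ≤ M * Real.exp (M * (2 * w.re ^ 2 + 4)) := by
    intro w hw
    have h1 : ‖w‖ ^ 2 ≤ w.re ^ 2 + 1 := by
      rw [← Complex.normSq_eq_norm_sq, Complex.normSq_apply]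
      have := abs_le.1 hw
      nlinarith
    constructor
    · refine (hM w).trans ?_
      have h2 : M * ‖w‖ ^ 2 ≤ M * (2 * w.re ^ 2 + 4) :=
        mul_le_mul_of_nonneg_left (by nlinarith [sq_nonneg w.re]) hM0
      exact mul_le_mul_of_nonneg_left (Real.exp_le_exp.2 h2) hM0
    · have h3 := Complex.norm_deriv_le_of_forall_mem_sphere_norm_le (c := w) (R := 1)
        (C := M * Real.exp (M * (2 * w.re ^ 2 + 4))) (f := S) one_pos hS.diff.diffContOnCl
        (fun z hz => by
          refine (hM z).trans ?_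
          have h4 : ‖z‖ ≤ ‖w‖ + 1 := by
            have h5 : ‖z - w‖ = 1 := by simpa [dist_eq_norm] using hz
            calc ‖z‖ = ‖w + (z - w)‖ := by congr 1; ring
              _ ≤ ‖w‖ + ‖z - w‖ := norm_add_le _ _
              _ = ‖w‖ + 1 := by rw [h5]
          have h6 : ‖z‖ ^ 2 ≤ (‖w‖ + 1) ^ 2 := pow_le_pow_left₀ (norm_nonneg _) h4 2
          have h2 : M * ‖z‖ ^ 2 ≤ M * (2 * w.re ^ 2 + 4) := by
            refine mul_le_mul_of_nonneg_left ?_ hM0
            nlinarith [sq_nonneg (‖w‖ - 1)]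
          exact mul_le_mul_of_nonneg_left (Real.exp_le_exp.2 h2) hM0)
      rwa [div_one] at h3
  -- the product
  have key : ∀ w : ℂ, w.re ≤ L1 → |w.im| ≤ 1 → ∀ a b : ℂ,
      ‖a‖ ≤ M * Real.exp (M * (2 * w.re ^ 2 + 4)) → (b = gg w ∨ b = deriv gg w) →
      ‖a * b‖ ≤ P * Real.exp (3 * w.re) := by
    intro w hw1 hw2 a b ha hbb
    rw [norm_mul]
    rcases le_total w.re 0 with h0 | h0
    · have hb1 : ‖b‖ ≤ C2 * Real.exp (-((2 * M + 3) * w.re ^ 2)) := by
        rcases hbb with rfl | rfl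
        · exact (hg2 w hw2 h0).1
        · exact (hg2 w hw2 h0).2
      calc ‖a‖ * ‖b‖ ≤ (M * Real.exp (M * (2 * w.re ^ 2 + 4))) *
            (C2 * Real.exp (-((2 * M + 3) * w.re ^ 2))) := by gcongr
        _ = M * C2 * Real.exp (4 * M - 3 * w.re ^ 2) := by
            have : Real.exp (4 * M - 3 * w.re ^ 2) = Real.exp (M * (2 * w.re ^ 2 + 4)) *
                Real.exp (-((2 * M + 3) * w.re ^ 2)) := by
              rw [← Real.exp_add]; congr 1; ring
            rw [this]; ring
        _ ≤ M * C2 * Real.exp ((4 * M + 1) + 3 * w.re) := by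
            gcongr
            nlinarith [sq_nonneg (2 * w.re + 1)]
        _ = M * C2 * Real.exp (4 * M + 1) * Real.exp (3 * w.re) := by
            rw [Real.exp_add]; ring
        _ ≤ P * Real.exp (3 * w.re) := by
            refine mul_le_mul_of_nonneg_right ?_ (Real.exp_pos _).le
            have : 0 ≤ M * Real.exp (M * (2 * L1 ^ 2 + 4)) * C3 := by positivity
            linarith
    · have hb1 : ‖b‖ ≤ C3 := by
        rcases hbb with rfl | rfl
        · exact (hg3 w hw2).1
        · exact (hg3 w hw2).2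
      calc ‖a‖ * ‖b‖ ≤ (M * Real.exp (M * (2 * w.re ^ 2 + 4))) * C3 := by gcongr
        _ ≤ (M * Real.exp (M * (2 * L1 ^ 2 + 4))) * C3 := by gcongr
        _ ≤ P := by
            have : 0 ≤ M * C2 * Real.exp (4 * M + 1) := by positivity
            linarith
        _ = P * 1 := (mul_one _).symm
        _ ≤ P * Real.exp (3 * w.re) := by
            refine mul_le_mul_of_nonneg_left ?_ hP0
            exact Real.one_le_exp (by linarith)
  refine ⟨2 * P + 1, by linarith, ?_⟩
  intro w hw1 hw2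
  have hE : 0 < Real.exp (3 * w.re) := Real.exp_pos _
  constructor
  · refine (key w hw1 hw2 (S w) (gg w) (hb w hw2).1 (Or.inl rfl)).trans ?_
    nlinarith
  · have hpi : |w.im| < Real.pi / 2 := by
      have := Real.pi_gt_three
      linarith
    rw [deriv_fun_mul (hS.diff w) (hg0 w hpi)]
    refine (norm_add_le _ _).trans ?_
    have k1 := key w hw1 hw2 (deriv S w) (gg w) (hb w hw2).2 (Or.inl rfl)
    have k2 := key w hw1 hw2 (S w) (deriv gg w) (hb w hw2).1 (Or.inr rfl)
    nlinarith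

/-- The majorant as a function of the real part. -/
noncomputable def BB (κ' p : ℝ) : ℝ := if 0 ≤ p then Real.exp (κ' * p) else Real.exp (3 * p)

lemma bet_eq (κ' L : ℝ) {n : ℕ} (hn : 1 ≤ n) :
    bet κ' L n = Real.exp (-(κ' * L)) * BB κ' (L - Real.log n) := by
  have hn0 : (0 : ℝ) < n := by exact_mod_cast hn
  unfold bet BB
  by_cases h : Real.log n ≤ L
  · rw [if_pos h, if_pos (by linarith), Real.rpow_def_of_pos hn0, ← Real.exp_add]
    congr 1; ring
  · rw [if_neg h, if_neg (by linarith), Real.rpow_def_of_pos hn0, ← Real.exp_add, ← Real.exp_add]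
    congr 1; ring

lemma BB_pos (κ' p : ℝ) : 0 < BB κ' p := by
  unfold BB; split_ifs <;> exact Real.exp_pos _

lemma BB_ge {κ' p L1 : ℝ} (hκ : 0 ≤ κ') (hL1 : 0 ≤ L1) (hp : p ≤ L1) :
    Real.exp (3 * p - 3 * L1) ≤ BB κ' p := by
  unfold BB
  split_ifs with h
  · exact Real.exp_le_exp.2 (by nlinarith)
  · exact Real.exp_le_exp.2 (by nlinarith)

lemma BB_one {κ' p : ℝ} (hκ : 0 ≤ κ') (hp : 0 ≤ p) : 1 ≤ BB κ' p := by
  unfold BB
  rw [if_pos hp]
  exact Real.one_le_exp (by positivity)

lemma L_exp {L : ℝ} (hL : 0 ≤ L) : L * Real.exp (-(2 / 3 * L)) ≤ 1 := by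
  have h := Real.quadratic_le_exp_of_nonneg (x := 2 / 3 * L) (by positivity)
  rw [Real.exp_neg, ← div_eq_mul_inv, div_le_one (Real.exp_pos _)]
  nlinarith [sq_nonneg (L - 3 / 4)]

theorem tb : S_TB := by
  intro hLPB hGG S κ κ' hS hκ1 hκ2 _
  have hκ0 : 0 < κ' := by linarith
  obtain ⟨C0, L1, hC0, hL1, hq, hq'⟩ := hLPB S κ κ' hS hκ0 hκ2
  obtain ⟨C1, hC1, hlow⟩ := low hGG hS L1
  obtain ⟨hg0, -, ⟨C3, hC3, hg3, -⟩, -⟩ := hGG
  obtain ⟨M, hM0, hM⟩ := hS.bd
  have hq1 : ∀ w : ℂ, 1 ≤ w.re → |w.im| ≤ 1 → ‖logDeriv S w‖ ≤ C0 * w.re :=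
    fun w h1 h2 => (hq w h1 h2).1
  have hpi3 := Real.pi_gt_three
  have hpi4 := Real.pi_lt_d2
  have hpi1 : |Real.pi / 4| ≤ 1 := by rw [abs_le]; constructor <;> linarith
  set v0 : ℝ := Real.pi / 4 with hv0
  set c0 : ℝ := ‖S ((L1 : ℂ) + v0 * I)‖ * Real.exp (-(κ' * L1)) with hc0
  have hc0p : 0 < c0 := by
    refine mul_pos (norm_pos_iff.2 (hS.ne _ ?_)) (Real.exp_pos _)
    rw [re_pt]; linarith
  set A2 : ℝ := C1 * Real.exp (3 * L1) / c0 with hA2
  set A3 : ℝ := 2 * C0 * C3 * M * Real.exp (4 * L1 + M * (2 * L1 ^ 2 + 1)) / c0 with hA3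
  set A1 : ℝ := 2 * C0 * C3 * Real.exp C0 with hA1
  have hA1p : 0 ≤ A1 := by positivity
  have hA2p : 0 ≤ A2 := by positivity
  have hA3p : 0 ≤ A3 := by positivity
  set E : ℝ := 2 * C0 + 4 + 2 * M with hE
  have hEp : 0 ≤ E := by positivity
  set C : ℝ := A1 + A2 + A3 + E + C3 with hCdef
  have hC1' : 1 ≤ C := by linarith
  refine ⟨C, max L1 3, hC1', le_max_of_le_left hL1, ?_⟩
  intro L hL n hn W hW
  have hLL1 : L1 ≤ L := (le_max_left _ _).trans hL
  have hL3 : 3 ≤ L := (le_max_right _ _).trans hL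
  have hL0 : 0 ≤ L := by linarith
  have hn0 : (0 : ℝ) < n := by exact_mod_cast hn
  have hlog : 0 ≤ Real.log n := Real.log_nonneg (by exact_mod_cast hn)
  set p : ℝ := L - Real.log n with hp
  have hpL : p ≤ L := by linarith
  set Z : ℝ := ‖S W‖ * bet κ' L n with hZ
  have hmL : c0 ≤ ‖S W‖ * Real.exp (-(κ' * L)) := by
    have h1 := hor_gain hS hL1 hq' (x := L1) (u := L) (y := v0) le_rfl hLL1 hpi1
    rw [hW, hc0]
    calc ‖S ((L1 : ℂ) + v0 * I)‖ * Real.exp (-(κ' * L1))
        ≤ ‖S ((L : ℂ) + v0 * I)‖ * Real.exp (-(κ' * (L - L1))) * Real.exp (-(κ' * L1)) := by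
          gcongr
      _ = ‖S ((L : ℂ) + v0 * I)‖ * Real.exp (-(κ' * L)) := by
          rw [mul_assoc, ← Real.exp_add]; congr 2; ring
  have hZ2 : Z = (‖S W‖ * Real.exp (-(κ' * L))) * BB κ' p := by
    rw [hZ, bet_eq κ' L hn, hp]; ring
  have hZc : c0 * BB κ' p ≤ Z := by
    rw [hZ2]
    exact mul_le_mul_of_nonneg_right hmL (BB_pos _ _).le
  have hZ0 : 0 < Z := lt_of_lt_of_le (mul_pos hc0p (BB_pos _ _)) hZc
  have hBZ : BB κ' p ≤ Z / c0 := by
    rw [le_div_iff₀ hc0p, mul_comm]; exact hZc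
  -- the value at the shifted saddle point
  have hSp : L1 ≤ p → ‖S ((p : ℂ) + v0 * I)‖ ≤ Z := by
    intro h
    have h1 := hor_gain hS hL1 hq' (x := p) (u := L) (y := v0) h hpL hpi1
    refine h1.trans (le_of_eq ?_)
    rw [hZ2, hW, BB, if_pos (by linarith : (0 : ℝ) ≤ p), mul_assoc, ← Real.exp_add]
    congr 2; ring
  constructor
  · have e1 : W - ((Real.log n : ℝ) : ℂ) = (p : ℂ) + v0 * I := by
      rw [hW, hp]; push_cast; ring
    rw [e1, mul_assoc C, ← hZ]
    rcases le_or_gt L1 p with h | h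
    · rw [norm_mul]
      have h1 := (hg3 ((p : ℂ) + v0 * I) (by rw [im_pt]; exact hpi1)).1
      calc ‖S ((p : ℂ) + v0 * I)‖ * ‖gg ((p : ℂ) + v0 * I)‖ ≤ Z * C3 := by
            gcongr
            exact hSp h
        _ = C3 * Z := mul_comm _ _
        _ ≤ C * Z := by
            refine mul_le_mul_of_nonneg_right ?_ hZ0.le
            linarith
    · have h1 := (hlow ((p : ℂ) + v0 * I) (by rw [re_pt]; exact h.le)
        (by rw [im_pt]; exact hpi1)).1
      rw [re_pt] at h1
      have h2 : Real.exp (3 * p) ≤ Real.exp (3 * L1) * BB κ' p := by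
        have := BB_ge hκ0.le (by linarith : (0 : ℝ) ≤ L1) h.le
        calc Real.exp (3 * p) = Real.exp (3 * L1) * Real.exp (3 * p - 3 * L1) := by
              rw [← Real.exp_add]; congr 1; ring
          _ ≤ _ := by gcongr
      calc _ ≤ C1 * Real.exp (3 * p) := h1
        _ ≤ C1 * (Real.exp (3 * L1) * (Z / c0)) := by
            gcongr
            exact h2.trans (by gcongr)
        _ = A2 * Z := by rw [hA2]; ring
        _ ≤ C * Z := by
            refine mul_le_mul_of_nonneg_right ?_ hZ0.le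
            linarith
  · intro w hw
    set τ : ℝ := w.re with hτ
    set θ : ℝ := w.im with hθ
    have hwe : w = (τ : ℂ) + θ * I := (Complex.re_add_im w).symm
    have he2 : Real.exp (-(2 / 3 * L)) ≤ 1 / 5 := by
      have h1 : Real.exp (-(2 / 3 * L)) ≤ Real.exp (-2) := Real.exp_le_exp.2 (by linarith)
      have h2 := Real.quadratic_le_exp_of_nonneg (x := 2) (by norm_num)
      have h3 : Real.exp (-2) ≤ 1 / 5 := by
        rw [Real.exp_neg, inv_eq_one_div]
        exact one_div_le_one_div_of_le (by norm_num) (by linarith)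
      exact h1.trans h3
    have hθ1 : |θ| ≤ 1 := by
      have := abs_le.1 (hw.trans he2)
      rw [abs_le]
      constructor <;> linarith [this.1, this.2]
    set r : ℝ := rp p w with hr
    have hr0 : 0 ≤ r := by rw [hr, rp]; exact le_max_right _ _
    have hr1 : τ ≤ p + r := by
      have : w.re - p ≤ r := by rw [hr, rp]; exact le_max_left _ _
      linarith
    set R : ℝ := L * (r + r ^ 2) with hR
    have hrR : r + r ^ 2 ≤ R := by
      rw [hR]
      exact le_mul_of_one_le_left (by positivity) (by linarith)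
    have hrR1 : r ≤ R := by linarith [sq_nonneg r]
    have hrR2 : r ^ 2 ≤ R := by linarith
    have hR0 : 0 ≤ R := hr0.trans hrR1
    -- it suffices to find constants
    have fin : ∀ A F : ℝ, 0 ≤ A → A ≤ C → F ≤ C → ‖deriv (fun w => S w * gg w) w‖ ≤
        A * L * Z * Real.exp (F * R) → ‖deriv (fun w => S w * gg w) w‖ ≤
        C * L * ‖S W‖ * bet κ' L n * Real.exp (C * L * (r + r ^ 2)) := by
      intro A F hA hAC hF h
      refine h.trans ?_
      have e1 : C * L * ‖S W‖ * bet κ' L n * Real.exp (C * L * (r + r ^ 2)) =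
          C * L * Z * Real.exp (C * R) := by
        rw [hZ, hR]; ring_nf
      rw [e1]
      have h2 : F * R ≤ C * R := mul_le_mul_of_nonneg_right hF hR0
      have h3 : A * L * Z ≤ C * L * Z := by
        refine mul_le_mul_of_nonneg_right ?_ hZ0.le
        exact mul_le_mul_of_nonneg_right hAC hL0
      have h4 : 0 ≤ A * L * Z := by positivity
      exact mul_le_mul h3 (Real.exp_le_exp.2 h2) (Real.exp_pos _).le (h4.trans h3)
    -- the derivative in terms of `S`
    have hder : L1 ≤ τ → ‖deriv (fun w => S w * gg w) w‖ ≤ 2 * C0 * C3 * τ * ‖S w‖ := by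
      intro hτ1
      have hτ0 : 1 ≤ τ := hL1.trans hτ1
      have hSne : S w ≠ 0 := hS.ne w (by rw [← hτ]; linarith)
      have hpi : |w.im| < Real.pi / 2 := by rw [← hθ]; linarith
      rw [deriv_fun_mul (hS.diff w) (hg0 w hpi)]
      have h1 : deriv S w = logDeriv S w * S w := by
        rw [logDeriv_apply, div_mul_cancel₀ _ hSne]
      have h2 := hq1 w (by rw [← hτ]; exact hτ0) (by rw [← hθ]; exact hθ1)
      rw [← hτ] at h2
      have h3 := hg3 w (by rw [← hθ]; exact hθ1)
      calc ‖deriv S w * gg w + S w * deriv gg w‖ ≤ ‖deriv S w * gg w‖ + ‖S w * deriv gg w‖ :=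
            norm_add_le _ _
        _ = ‖logDeriv S w‖ * ‖S w‖ * ‖gg w‖ + ‖S w‖ * ‖deriv gg w‖ := by
            rw [h1, norm_mul, norm_mul, norm_mul]
        _ ≤ C0 * τ * ‖S w‖ * C3 + ‖S w‖ * C3 := by
            gcongr
            · exact h3.1
            · exact h3.2
        _ ≤ 2 * C0 * C3 * τ * ‖S w‖ := by
            have h4 : 1 ≤ C0 * τ := one_le_mul_of_one_le_of_one_le hC0 hτ0
            have h5 : 0 ≤ ‖S w‖ * C3 := by positivity
            have h6 := mul_le_mul_of_nonneg_right h4 h5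
            linarith
    rcases le_or_gt L1 τ with hτ1 | hτ1
    · have hτ0 : 1 ≤ τ := hL1.trans hτ1
      have hτp : 0 < τ := by linarith
      rcases le_or_gt L1 p with hp1 | hp1
      · -- both large
        refine fin A1 (2 * C0 + 1) hA1p (by linarith) (by linarith) ?_
        refine (hder hτ1).trans ?_
        have h1 : ‖S w‖ ≤ ‖S ((τ : ℂ) + v0 * I)‖ * Real.exp (C0 * τ * |θ - v0|) := by
          have := ver_le hS hq1 (x := τ) (y := v0) (v := θ) hτ0 hpi1 hθ1
          rw [← hwe] at this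
          exact this
        have h2 : C0 * τ * |θ - v0| ≤ C0 + C0 * R := by
          have h3 : τ * |θ - v0| ≤ 1 + R := by
            calc τ * |θ - v0| ≤ (L + r) * Real.exp (-(2 / 3 * L)) := by
                  gcongr
                  linarith
              _ = L * Real.exp (-(2 / 3 * L)) + r * Real.exp (-(2 / 3 * L)) := by ring
              _ ≤ 1 + r * 1 := by
                  gcongr
                  · exact L_exp hL0
                  · linarith
              _ ≤ 1 + R := by linarith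
          calc C0 * τ * |θ - v0| = C0 * (τ * |θ - v0|) := by ring
            _ ≤ C0 * (1 + R) := by gcongr
            _ = C0 + C0 * R := by ring
        have h3 : ‖S ((τ : ℂ) + v0 * I)‖ ≤ Z * Real.exp (C0 * R) := by
          rcases le_or_gt τ p with h4 | h4
          · have h5 := hor_mono hS (x := τ) (u := p) (y := v0) hτp h4
            calc ‖S ((τ : ℂ) + v0 * I)‖ ≤ Z := h5.trans (hSp hp1)
              _ = Z * 1 := (mul_one _).symm
              _ ≤ Z * Real.exp (C0 * R) := by
                  refine mul_le_mul_of_nonneg_left ?_ hZ0.le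
                  exact Real.one_le_exp (by positivity)
          · have h5 := hor_up hS (by linarith : (0 : ℝ) ≤ C0) hq1 (x := p) (u := τ) (y := v0)
              (hL1.trans hp1) h4.le hpi1
            have h6 : τ - p ≤ r := by linarith
            have h7 : C0 * τ * (τ - p) ≤ C0 * R := by
              have h8 : τ * (τ - p) ≤ R := by
                calc τ * (τ - p) ≤ (L + r) * r := by
                      gcongr
                      · linarith
                  _ = L * r + 1 * r ^ 2 := by ring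
                  _ ≤ L * r + L * r ^ 2 := by
                      have h9 : 1 * r ^ 2 ≤ L * r ^ 2 :=
                        mul_le_mul_of_nonneg_right (by linarith) (sq_nonneg r)
                      linarith
                  _ = R := by rw [hR]; ring
              calc C0 * τ * (τ - p) = C0 * (τ * (τ - p)) := by ring
                _ ≤ C0 * R := by gcongr
            calc ‖S ((τ : ℂ) + v0 * I)‖ ≤ ‖S ((p : ℂ) + v0 * I)‖ * Real.exp (C0 * τ * (τ - p)) := h5
              _ ≤ Z * Real.exp (C0 * R) := by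
                  gcongr
                  exact hSp hp1
        have h4 : τ ≤ L * Real.exp R := by
          have h5 : 1 + R ≤ Real.exp R := by linarith [Real.add_one_le_exp R]
          calc τ ≤ L + r := by linarith
            _ ≤ L + L * R := by
                have h9 : 1 * R ≤ L * R := mul_le_mul_of_nonneg_right (by linarith) hR0
                linarith
            _ = L * (1 + R) := by ring
            _ ≤ L * Real.exp R := by gcongr
        calc 2 * C0 * C3 * τ * ‖S w‖
            ≤ 2 * C0 * C3 * (L * Real.exp R) *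
              ((Z * Real.exp (C0 * R)) * Real.exp (C0 + C0 * R)) := by
              gcongr
              exact h1.trans (by gcongr)
          _ = A1 * L * Z * Real.exp ((2 * C0 + 1) * R) := by
              have e1 : Real.exp ((2 * C0 + 1) * R) =
                  Real.exp R * Real.exp (C0 * R) * Real.exp (C0 * R) := by
                rw [← Real.exp_add, ← Real.exp_add]; congr 1; ring
              rw [e1, Real.exp_add, hA1]; ring
      · -- `p` small, `τ` large
        refine fin A3 (4 + 2 * M) hA3p (by linarith) (by linarith) ?_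
        refine (hder hτ1).trans ?_
        have h0 : p ≤ τ := by linarith
        have h1 : τ ≤ L1 + r := by linarith
        have h2 : -r ≤ p := by linarith
        have h3 : ‖S w‖ ≤ M * Real.exp (M * (2 * L1 ^ 2 + 1) + 2 * M * R) := by
          refine (hM w).trans ?_
          have h4 : ‖w‖ ^ 2 ≤ 2 * L1 ^ 2 + 1 + 2 * R := by
            rw [← Complex.normSq_eq_norm_sq, Complex.normSq_apply, ← hτ, ← hθ]
            have h6 : θ * θ ≤ 1 := by
              rw [← abs_mul_abs_self θ]
              exact mul_le_one₀ hθ1 (abs_nonneg _) hθ1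
            have h7 : τ * τ ≤ (L1 + r) * (L1 + r) := mul_self_le_mul_self hτp.le h1
            linarith [sq_nonneg (L1 - r)]
          have h5 : M * ‖w‖ ^ 2 ≤ M * (2 * L1 ^ 2 + 1) + 2 * M * R := by
            calc M * ‖w‖ ^ 2 ≤ M * (2 * L1 ^ 2 + 1 + 2 * R) := by gcongr
              _ = _ := by ring
          gcongr
        have h4 : τ ≤ Real.exp (L1 + R) := by
          have := Real.add_one_le_exp (L1 + R)
          linarith
        have h5 : 1 ≤ Real.exp (3 * R + 3 * L1) * (Z / c0) := by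
          have h6 := BB_ge hκ0.le (by linarith : (0 : ℝ) ≤ L1) hp1.le
          have h7 : Real.exp (-(3 * R + 3 * L1)) ≤ BB κ' p :=
            (Real.exp_le_exp.2 (by linarith)).trans h6
          calc (1 : ℝ) = Real.exp (3 * R + 3 * L1) * Real.exp (-(3 * R + 3 * L1)) := by
                rw [← Real.exp_add, add_neg_cancel, Real.exp_zero]
            _ ≤ Real.exp (3 * R + 3 * L1) * (Z / c0) := by
                gcongr
                exact h7.trans hBZ
        calc 2 * C0 * C3 * τ * ‖S w‖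
            ≤ 2 * C0 * C3 * Real.exp (L1 + R) *
              (M * Real.exp (M * (2 * L1 ^ 2 + 1) + 2 * M * R)) := by gcongr
          _ = (2 * C0 * C3 * Real.exp (L1 + R) *
              (M * Real.exp (M * (2 * L1 ^ 2 + 1) + 2 * M * R))) * 1 := (mul_one _).symm
          _ ≤ (2 * C0 * C3 * Real.exp (L1 + R) *
              (M * Real.exp (M * (2 * L1 ^ 2 + 1) + 2 * M * R))) *
              (Real.exp (3 * R + 3 * L1) * (Z / c0)) := by
              refine mul_le_mul_of_nonneg_left h5 (by positivity)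
          _ = A3 * 1 * Z * Real.exp ((4 + 2 * M) * R) := by
              have e1 : Real.exp ((4 + 2 * M) * R) * Real.exp (4 * L1 + M * (2 * L1 ^ 2 + 1)) =
                  Real.exp (L1 + R) * Real.exp (M * (2 * L1 ^ 2 + 1) + 2 * M * R) *
                  Real.exp (3 * R + 3 * L1) := by
                rw [← Real.exp_add, ← Real.exp_add, ← Real.exp_add]; congr 1; ring
              rw [hA3]
              calc _ = 2 * C0 * C3 * M * (Real.exp (L1 + R) *
                    Real.exp (M * (2 * L1 ^ 2 + 1) + 2 * M * R) *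
                    Real.exp (3 * R + 3 * L1)) * (Z / c0) := by ring
                _ = _ := by rw [← e1]; ring
          _ ≤ A3 * L * Z * Real.exp ((4 + 2 * M) * R) := by
              gcongr
              linarith
    · -- `τ` small
      refine fin A2 3 hA2p (by linarith) (by linarith) ?_
      have h1 := (hlow w hτ1.le hθ1).2
      have h2 : Real.exp (3 * τ) ≤ Real.exp (3 * L1) * BB κ' p * Real.exp (3 * R) := by
        rcases le_or_gt L1 p with hp1 | hp1
        · have h3 := BB_one hκ0.le (by linarith : (0 : ℝ) ≤ p)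
          have h4 : 1 ≤ Real.exp (3 * R) := Real.one_le_exp (by positivity)
          calc Real.exp (3 * τ) ≤ Real.exp (3 * L1) := Real.exp_le_exp.2 (by linarith)
            _ = Real.exp (3 * L1) * 1 * 1 := by ring
            _ ≤ _ := by gcongr
        · have h3 := BB_ge hκ0.le (by linarith : (0 : ℝ) ≤ L1) hp1.le
          calc Real.exp (3 * τ) ≤ Real.exp (3 * p + 3 * R) := Real.exp_le_exp.2 (by linarith)
            _ = Real.exp (3 * L1) * Real.exp (3 * p - 3 * L1) * Real.exp (3 * R) := by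
                rw [← Real.exp_add, ← Real.exp_add]; congr 1; ring
            _ ≤ _ := by gcongr
      calc _ ≤ C1 * Real.exp (3 * τ) := h1
        _ ≤ C1 * (Real.exp (3 * L1) * (Z / c0) * Real.exp (3 * R)) := by
            gcongr
            exact h2.trans (by gcongr)
        _ = A2 * 1 * Z * Real.exp (3 * R) := by rw [hA2]; ring
        _ ≤ A2 * L * Z * Real.exp (3 * R) := by
            gcongr
            linarith

end Pool.Agent.N297.KL
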